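import Pool.Agent.Zk1.BIL.Def
import Pool.Agent.Zk1.BI.Loc

set_option autoImplicit false

/-!
# The Euler product over the primes `p ≤ X` of a general L-function
-/

namespace Pool.Agent.Zk1.BIL

open Complex Filter Topology MeasureTheory Set Metric
open Pool.Agent.Zk1.BI (Cr Cr_summable Cr_nonneg Ce Ce_nonneg sum_sq_le)

/-- the logarithm of the local factor at `p` -/
noncomputable def hp (c : ℕ → ℂ) (p : ℕ) (s : ℂ) : ℂ := ∑' k : ℕ, c (p ^ (k + 1)) * ((p : ℂ) ^ (-s)) ^ (k + 1)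

/-- the logarithm of the product of the local factors at `p ≤ X` -/
noncomputable def PL (c : ℕ → ℂ) (X : ℝ) (s : ℂ) : ℂ :=
  ∑ p ∈ (Finset.range (⌊X⌋₊ + 1)).filter Nat.Prime, hp c p s

/-- the sum over the primes `p ≤ X` -/
noncomputable def PSc (c : ℕ → ℂ) (X : ℝ) (s : ℂ) : ℂ :=
  ∑ p ∈ (Finset.range (⌊X⌋₊ + 1)).filter Nat.Prime, c p * (p : ℂ) ^ (-s)

lemma w_norm {p : ℕ} (hp : p.Prime) (s : ℂ) : ‖(p : ℂ) ^ (-s)‖ = (p : ℝ) ^ (-s.re) := by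
  rw [Complex.norm_natCast_cpow_of_pos hp.pos, Complex.neg_re]

lemma w_le {p : ℕ} (hp : p.Prime) {s : ℂ} (hs : 1 / 2 ≤ s.re) : ‖(p : ℂ) ^ (-s)‖ ≤ 3 / 4 := by
  rw [w_norm hp]
  have h2 : (2 : ℝ) ≤ p := by exact_mod_cast hp.two_le
  calc (p : ℝ) ^ (-s.re) ≤ (p : ℝ) ^ (-(1 / 2 : ℝ)) :=
        Real.rpow_le_rpow_of_exponent_le (by linarith) (by linarith)
    _ ≤ (2 : ℝ) ^ (-(1 / 2 : ℝ)) := Real.rpow_le_rpow_of_nonpos (by norm_num) h2 (by norm_num)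
    _ ≤ 3 / 4 := by
        rw [Real.rpow_neg (by norm_num), ← Real.sqrt_eq_rpow]
        have h1 : (4 / 3 : ℝ) ≤ Real.sqrt 2 := by
          apply Real.le_sqrt_of_sq_le
          norm_num
        rw [inv_le_comm₀ (by positivity) (by norm_num)]
        norm_num at h1 ⊢
        linarith

lemma geo_summable {w : ℂ} (hw : ‖w‖ ≤ 3 / 4) {b : ℕ → ℂ} (hb : ∀ n, ‖b n‖ ≤ 1) (j : ℕ) :
    Summable (fun k : ℕ => b k * w ^ (k + j)) := by
  apply Summable.of_norm_bounded (g := fun k : ℕ => (3 / 4 : ℝ) ^ k)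
    (summable_geometric_of_lt_one (by norm_num) (by norm_num))
  intro k
  rw [norm_mul, norm_pow, pow_add]
  have h1 : ‖w‖ ^ k ≤ (3 / 4) ^ k := pow_le_pow_left₀ (norm_nonneg _) hw k
  have h2 : ‖w‖ ^ j ≤ 1 := pow_le_one₀ (norm_nonneg _) (by linarith)
  have h3 := hb k
  have h4 : 0 ≤ ‖w‖ ^ j := by positivity
  have h5 : 0 ≤ ‖w‖ ^ k := by positivity
  calc ‖b k‖ * (‖w‖ ^ k * ‖w‖ ^ j) ≤ 1 * ((3 / 4) ^ k * 1) := by gcongr
    _ = _ := by ring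

lemma geo_bound {w : ℂ} (hw : ‖w‖ ≤ 3 / 4) {b : ℕ → ℂ} (hb : ∀ n, ‖b n‖ ≤ 1) (j : ℕ) :
    ‖∑' k : ℕ, b k * w ^ (k + j)‖ ≤ 4 * ‖w‖ ^ j := by
  have h1 : HasSum (fun k : ℕ => (3 / 4 : ℝ) ^ k * ‖w‖ ^ j) ((1 - 3 / 4)⁻¹ * ‖w‖ ^ j) :=
    (hasSum_geometric_of_lt_one (by norm_num) (by norm_num)).mul_right _
  have h2 := tsum_of_norm_bounded h1 (f := fun k : ℕ => b k * w ^ (k + j)) (by
    intro k
    rw [norm_mul, norm_pow, pow_add]
    have h1 : ‖w‖ ^ k ≤ (3 / 4) ^ k := pow_le_pow_left₀ (norm_nonneg _) hw k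
    have h3 := hb k
    have h4 : 0 ≤ ‖w‖ ^ j := by positivity
    have h5 : 0 ≤ ‖w‖ ^ k := by positivity
    calc ‖b k‖ * (‖w‖ ^ k * ‖w‖ ^ j) ≤ 1 * ((3 / 4) ^ k * ‖w‖ ^ j) := by gcongr
      _ = _ := by ring)
  refine h2.trans (le_of_eq ?_)
  norm_num

lemma hp_le {c : ℕ → ℂ} (hc : ∀ n, ‖c n‖ ≤ 1) {p : ℕ} (hpp : p.Prime) {s : ℂ} (hs : 1 / 2 ≤ s.re) :
    ‖hp c p s‖ ≤ 4 * ‖(p : ℂ) ^ (-s)‖ := by
  have := geo_bound (w_le hpp hs) (b := fun k => c (p ^ (k + 1))) (fun k => hc _) 1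
  rw [pow_one] at this
  exact this

lemma hp_sub {c : ℕ → ℂ} (hc : ∀ n, ‖c n‖ ≤ 1) {p : ℕ} (hpp : p.Prime) {s : ℂ} (hs : 1 / 2 ≤ s.re) :
    ‖hp c p s - c p * (p : ℂ) ^ (-s)‖ ≤ 4 * ‖(p : ℂ) ^ (-s)‖ ^ 2 := by
  have h1 : hp c p s = c p * (p : ℂ) ^ (-s) + ∑' k : ℕ, c (p ^ (k + 2)) * ((p : ℂ) ^ (-s)) ^ (k + 2) := by
    unfold hp
    rw [(geo_summable (w_le hpp hs) (b := fun k => c (p ^ (k + 1))) (fun k => hc _) 1).tsum_eq_zero_add]
    simp only [zero_add, pow_one]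
  rw [h1, add_sub_cancel_left]
  exact geo_bound (w_le hpp hs) (b := fun k => c (p ^ (k + 2))) (fun k => hc _) 2

lemma hp_diff {c : ℕ → ℂ} (hc : ∀ n, ‖c n‖ ≤ 1) {p : ℕ} (hpp : p.Prime) {s : ℂ} (hs : 1 / 2 < s.re) :
    DifferentiableAt ℂ (hp c p) s := by
  have hU : IsOpen {z : ℂ | 1 / 2 < z.re} := isOpen_lt continuous_const Complex.continuous_re
  have h0 : (p : ℂ) ≠ 0 := by exact_mod_cast hpp.ne_zero
  have h1 : DifferentiableOn ℂ (fun z => ∑' k : ℕ, c (p ^ (k + 1)) * ((p : ℂ) ^ (-z)) ^ (k + 1))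
      {z : ℂ | 1 / 2 < z.re} := by
    apply differentiableOn_tsum_of_summable_norm (u := fun k : ℕ => (3 / 4 : ℝ) ^ k)
      (summable_geometric_of_lt_one (by norm_num) (by norm_num)) _ hU
    · intro k z hz
      have hz' : 1 / 2 < z.re := hz
      have hw := w_le hpp hz'.le
      rw [norm_mul, norm_pow, pow_succ]
      have h1 : ‖(p : ℂ) ^ (-z)‖ ^ k ≤ (3 / 4) ^ k := pow_le_pow_left₀ (norm_nonneg _) hw k
      have h3 := hc (p ^ (k + 1))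
      have h4 : ‖(p : ℂ) ^ (-z)‖ ≤ 1 := by linarith
      calc ‖c (p ^ (k + 1))‖ * (‖(p : ℂ) ^ (-z)‖ ^ k * ‖(p : ℂ) ^ (-z)‖) ≤ 1 * ((3 / 4) ^ k * 1) := by gcongr
        _ = _ := by ring
    · intro k
      apply DifferentiableOn.const_mul
      apply DifferentiableOn.pow
      intro z _
      exact ((differentiableAt_id.neg).const_cpow (Or.inl h0)).differentiableWithinAt
  exact h1.differentiableAt (hU.mem_nhds hs)

lemma PL_diff {c : ℕ → ℂ} (hc : ∀ n, ‖c n‖ ≤ 1) (X : ℝ) {s : ℂ} (hs : 1 / 2 < s.re) :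
    DifferentiableAt ℂ (PL c X) s := by
  unfold PL
  exact DifferentiableAt.fun_sum fun p hp => hp_diff hc (Finset.mem_filter.1 hp).2 hs

lemma PL_ana {c : ℕ → ℂ} (hc : ∀ n, ‖c n‖ ≤ 1) (X : ℝ) {s : ℂ} (hs : 1 / 2 < s.re) :
    AnalyticAt ℂ (PL c X) s := by
  have hU : IsOpen {z : ℂ | 1 / 2 < z.re} := isOpen_lt continuous_const Complex.continuous_re
  have h1 : DifferentiableOn ℂ (PL c X) {z : ℂ | 1 / 2 < z.re} := fun z hz =>
    (PL_diff hc X hz).differentiableWithinAt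
  exact h1.analyticAt (hU.mem_nhds hs)

lemma PL_sub {c : ℕ → ℂ} (hc : ∀ n, ‖c n‖ ≤ 1) (X : ℝ) {e : ℝ} (he : 0 < e) {s : ℂ} (hs : 1 / 2 + e ≤ s.re) :
    ‖PL c X s - PSc c X s‖ ≤ 4 * Ce e := by
  unfold PL PSc
  rw [← Finset.sum_sub_distrib]
  refine (norm_sum_le _ _).trans ?_
  have h1 : ∑ p ∈ (Finset.range (⌊X⌋₊ + 1)).filter Nat.Prime, ‖hp c p s - c p * (p : ℂ) ^ (-s)‖ ≤
      ∑ p ∈ (Finset.range (⌊X⌋₊ + 1)).filter Nat.Prime, 4 * ‖(p : ℂ) ^ (-s)‖ ^ 2 :=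
    Finset.sum_le_sum fun p hp => hp_sub hc (Finset.mem_filter.1 hp).2 (by linarith)
  refine h1.trans ?_
  rw [← Finset.mul_sum]
  exact mul_le_mul_of_nonneg_left (sum_sq_le X he hs) (by norm_num)

/-- the logarithm of the L-function -/
noncomputable def LL (c : ℕ → ℂ) (s : ℂ) : ℂ := ∑' n : ℕ, c n * (n : ℂ) ^ (-s)

lemma cterm_le {c : ℕ → ℂ} (hc : ∀ n, ‖c n‖ ≤ 1) (hc0 : c 0 = 0) {s : ℂ} (n : ℕ) :
    ‖c n * (n : ℂ) ^ (-s)‖ ≤ 1 / (n : ℝ) ^ s.re := by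
  rcases Nat.eq_zero_or_pos n with rfl | hn
  · rw [hc0, zero_mul, norm_zero]; positivity
  · rw [norm_mul, Complex.norm_natCast_cpow_of_pos hn, Complex.neg_re, Real.rpow_neg (Nat.cast_nonneg _), one_div]
    have h1 := hc n
    have h2 : 0 ≤ ((n : ℝ) ^ s.re)⁻¹ := by positivity
    calc ‖c n‖ * ((n : ℝ) ^ s.re)⁻¹ ≤ 1 * ((n : ℝ) ^ s.re)⁻¹ := mul_le_mul_of_nonneg_right h1 h2
      _ = _ := one_mul _

lemma LL_summable {c : ℕ → ℂ} (hc : ∀ n, ‖c n‖ ≤ 1) (hc0 : c 0 = 0) {s : ℂ} (hs : 1 < s.re) :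
    Summable fun n : ℕ => c n * (n : ℂ) ^ (-s) :=
  Summable.of_norm_bounded (Real.summable_one_div_nat_rpow.mpr hs) (cterm_le hc hc0)

lemma LL_le {c : ℕ → ℂ} (hc : ∀ n, ‖c n‖ ≤ 1) (hc0 : c 0 = 0) {s : ℂ} (hs : 6 / 5 ≤ s.re) : ‖LL c s‖ ≤ Cr := by
  apply tsum_of_norm_bounded Cr_summable.hasSum
  intro n
  refine (cterm_le hc hc0 n).trans ?_
  rcases Nat.eq_zero_or_pos n with rfl | hn
  · simp only [CharP.cast_eq_zero]
    rw [Real.zero_rpow (by linarith), Real.zero_rpow (by norm_num)]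
  · apply one_div_le_one_div_of_le (by positivity)
    exact Real.rpow_le_rpow_of_exponent_le (by exact_mod_cast hn) hs

lemma pow_cpow (p m : ℕ) (s : ℂ) : ((p ^ m : ℕ) : ℂ) ^ (-s) = ((p : ℂ) ^ (-s)) ^ m := by
  rw [Nat.cast_pow, ← Complex.natCast_cpow_natCast_mul, Complex.cpow_nat_mul]

lemma LL_primes {c : ℕ → ℂ} (hc : ∀ n, ‖c n‖ ≤ 1) (hcp : ∀ n, ¬ IsPrimePow n → c n = 0) {s : ℂ}
    (hs : 1 < s.re) : LL c s = ∑' n : ℕ, if n.Prime then hp c n s else 0 := by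
  have hc0 : c 0 = 0 := hcp 0 not_isPrimePow_zero
  unfold LL
  rw [tsum_eq_tsum_primes_of_support_subset_prime_powers (LL_summable hc hc0 hs) (by
    intro n hn
    by_contra h
    apply hn
    change c n * (n : ℂ) ^ (-s) = 0
    rw [hcp n h, zero_mul])]
  have h1 : ∀ p : Nat.Primes, ∑' k : ℕ, c ((p : ℕ) ^ (k + 1)) * (((p : ℕ) ^ (k + 1) : ℕ) : ℂ) ^ (-s) =
      hp c (p : ℕ) s := by
    intro p
    unfold hp
    refine tsum_congr fun k => ?_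
    congr 1
    exact pow_cpow (p : ℕ) (k + 1) s
  rw [tsum_congr h1]
  have h2 := tsum_subtype {n : ℕ | n.Prime} (fun n => hp c n s)
  have h3 : ∑' p : Nat.Primes, hp c (p : ℕ) s = ∑' x : {n : ℕ | n.Prime}, hp c (x : ℕ) s := rfl
  rw [h3, h2]
  refine tsum_congr fun n => ?_
  rw [Set.indicator_apply]
  rfl

/-- the tail of the Euler product -/
lemma LL_tail {c : ℕ → ℂ} (hc : ∀ n, ‖c n‖ ≤ 1) (hcp : ∀ n, ¬ IsPrimePow n → c n = 0) {X : ℝ} (hX : 1 ≤ X) {s : ℂ}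
    (hs : 6 / 5 ≤ s.re) : ‖LL c s - PL c X s‖ ≤ 4 * Cr * X ^ (-(s.re - 6 / 5)) := by
  have hX0 : 0 < X := by linarith
  rw [LL_primes hc hcp (by linarith)]
  have hbd : ∀ n : ℕ, ‖(if n.Prime then hp c n s else 0)‖ ≤ 4 * (1 / (n : ℝ) ^ s.re) := by
    intro n
    split_ifs with hn
    · refine (hp_le hc hn (by linarith)).trans ?_
      rw [w_norm hn, Real.rpow_neg (Nat.cast_nonneg _), one_div]
    · rw [norm_zero]; positivity
  have hsum : Summable fun n : ℕ => (if n.Prime then hp c n s else 0) :=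
    Summable.of_norm_bounded ((Real.summable_one_div_nat_rpow.mpr (by linarith : 1 < s.re)).mul_left 4) hbd
  have hS1 : HasSum (fun n => if n ∈ (Finset.range (⌊X⌋₊ + 1)).filter Nat.Prime then hp c n s else 0) (PL c X s) := by
    have h10 : HasSum (fun n => if n ∈ (Finset.range (⌊X⌋₊ + 1)).filter Nat.Prime then hp c n s else 0)
        (∑ n ∈ (Finset.range (⌊X⌋₊ + 1)).filter Nat.Prime,
          (fun n => if n ∈ (Finset.range (⌊X⌋₊ + 1)).filter Nat.Prime then hp c n s else 0) n) :=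
      hasSum_sum_of_ne_finset_zero (fun b hb => by simp only [if_neg hb])
    have h11 : (∑ n ∈ (Finset.range (⌊X⌋₊ + 1)).filter Nat.Prime,
          (fun n => if n ∈ (Finset.range (⌊X⌋₊ + 1)).filter Nat.Prime then hp c n s else 0) n) = PL c X s := by
      unfold PL
      refine Finset.sum_congr rfl fun n hn => ?_
      simp only [if_pos hn]
    rwa [h11] at h10
  have hS2 := hsum.hasSum.sub hS1
  have hg : HasSum (fun n : ℕ => 4 * X ^ (-(s.re - 6 / 5)) * (1 / (n : ℝ) ^ (6 / 5 : ℝ)))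
      (4 * X ^ (-(s.re - 6 / 5)) * Cr) := Cr_summable.hasSum.mul_left _
  have h7 := tsum_of_norm_bounded hg (f := fun n => (if n.Prime then hp c n s else 0) -
    (if n ∈ (Finset.range (⌊X⌋₊ + 1)).filter Nat.Prime then hp c n s else 0)) (by
    intro n
    by_cases hn : n ∈ (Finset.range (⌊X⌋₊ + 1)).filter Nat.Prime
    · rw [if_pos hn, if_pos (Finset.mem_filter.1 hn).2, sub_self, norm_zero]; positivity
    rw [if_neg hn, sub_zero]
    by_cases hpn : n.Prime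
    swap
    · rw [if_neg hpn, norm_zero]; positivity
    refine (hbd n).trans ?_
    have hnX : X < n := by
      by_contra hcon
      push Not at hcon
      apply hn
      rw [Finset.mem_filter, Finset.mem_range]
      exact ⟨Nat.lt_succ_of_le (Nat.le_floor hcon), hpn⟩
    have hnpos : (0 : ℝ) < n := hX0.trans hnX
    have h6 : (n : ℝ) ^ s.re = (n : ℝ) ^ (s.re - 6 / 5) * (n : ℝ) ^ (6 / 5 : ℝ) := by
      rw [← Real.rpow_add hnpos]
      congr 1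
      ring
    rw [h6, one_div, mul_inv, Real.rpow_neg hX0.le, one_div, mul_assoc]
    refine mul_le_mul_of_nonneg_left ?_ (by norm_num)
    refine mul_le_mul_of_nonneg_right ?_ (by positivity)
    apply inv_anti₀ (by positivity)
    exact Real.rpow_le_rpow hX0.le hnX.le (by linarith))
  rw [hS2.tsum_eq] at h7
  refine h7.trans (le_of_eq ?_)
  ring

end Pool.Agent.Zk1.BIL
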