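import Pool.Agent.Zk1.BIL.Euler

set_option autoImplicit false

/-!
# Basic facts about the class `LC`
-/

namespace Pool.Agent.Zk1.BIL

open Complex Filter Topology MeasureTheory Set Metric
open Pool.Agent.Zk1.BI (Cr Cr_summable Cr_nonneg Ce Ce_nonneg sum_sq_le)

/-- number of zeros with multiplicity -/
noncomputable def num (F : ℂ → ℂ) (A : Set ℂ) : ℕ := ∑ᶠ s ∈ A, analyticOrderNatAt F s

/-- The zeros near `ρ`, not much to the left of it. -/
def near (F : ℂ → ℂ) (ε : ℝ) (ρ : ℂ) : Set ℂ := {s : ℂ | F s = 0 ∧ ρ.re - ε ≤ s.re ∧ |s.im - ρ.im| ≤ 1}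

variable {D A Q : ℝ} {F : ℂ → ℂ} {a : ℕ → ℂ}

lemma LC.re_le (h : LC D A Q F a) {s : ℂ} (hs : F s = 0) (hi : 1 ≤ s.im) : s.re ≤ 1 := by
  by_contra hcon
  push Not at hcon
  exact h.nz s hcon hi hs

lemma LC.fin (h : LC D A Q F a) (hA : 1 ≤ A) (x b c : ℝ) (hb : 1 ≤ b) :
    {s : ℂ | F s = 0 ∧ x ≤ s.re ∧ b ≤ s.im ∧ s.im ≤ c}.Finite := by
  have hcomp : IsCompact (Icc x 1 ×ℂ Icc b c) := isCompact_Icc.reProdIm isCompact_Icc
  by_contra hinf
  have hinf : {s : ℂ | F s = 0 ∧ x ≤ s.re ∧ b ≤ s.im ∧ s.im ≤ c}.Infinite := hinf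
  obtain ⟨y, hy, hacc⟩ := hinf.exists_accPt_of_subset_isCompact hcomp (fun s hs =>
    ⟨⟨hs.2.1, h.re_le hs.1 (hb.trans hs.2.2.1)⟩, ⟨hs.2.2.1, hs.2.2.2⟩⟩)
  have hfreq : ∃ᶠ z in 𝓝[≠] y, F z = 0 := by
    rw [accPt_iff_frequently_nhdsNE] at hacc
    exact hacc.mono fun z hz => hz.1
  have hU : IsPreconnected {z : ℂ | 0 < z.im} := (convex_halfSpace_im_gt 0).isPreconnected
  have hy0 : 0 < y.im := by
    have := hy.2.1
    linarith
  have hz := AnalyticOnNhd.eqOn_zero_of_preconnected_of_frequently_eq_zero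
    (f := F) (U := {z : ℂ | 0 < z.im}) (fun s hs => h.an s hs) hU hy0 hfreq
  have h1 := h.lower 1 le_rfl
  have h2 : F (⟨2, 1⟩ : ℂ) = 0 := hz (show (⟨2, 1⟩ : ℂ) ∈ {z : ℂ | 0 < z.im} by
    change (0 : ℝ) < 1
    norm_num)
  rw [h2, norm_zero] at h1
  have : 0 < A⁻¹ := by positivity
  linarith

lemma LC.near_fin (h : LC D A Q F a) (hA : 1 ≤ A) (ε : ℝ) {ρ : ℂ} (hρ : 2 ≤ ρ.im) : (near F ε ρ).Finite := by
  refine (h.fin hA (ρ.re - ε) (ρ.im - 1) (ρ.im + 1) (by linarith)).subset ?_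
  rintro s ⟨h1, h2, h3⟩
  have := abs_le.1 h3
  exact ⟨h1, h2, by linarith, by linarith⟩

lemma num_mono {A B : Set ℂ} (hB : B.Finite) (h : A ⊆ B) : num F A ≤ num F B := by
  unfold num
  rw [finsum_mem_eq_finite_toFinset_sum _ (hB.subset h), finsum_mem_eq_finite_toFinset_sum _ hB]
  exact Finset.sum_le_sum_of_subset (by
    intro x hx
    rw [Set.Finite.mem_toFinset] at hx ⊢
    exact h hx)

lemma LC.num_near_mono (h : LC D A Q F a) (hA : 1 ≤ A) {ε ε' : ℝ} (hε : ε ≤ ε') {ρ : ℂ} (hρ : 2 ≤ ρ.im) :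
    num F (near F ε ρ) ≤ num F (near F ε' ρ) := by
  apply num_mono (h.near_fin hA ε' hρ)
  rintro s ⟨h1, h2, h3⟩
  exact ⟨h1, by linarith, h3⟩

/-- the normalised coefficients of the logarithm -/
noncomputable def cf (D : ℝ) (a : ℕ → ℂ) (n : ℕ) : ℂ := a n / (D * Real.log n)

lemma LC.a_le_one (h : LC D A Q F a) {n : ℕ} (hn : n ≤ 1) : a n = 0 := by
  have h1 := h.ha n
  have h2 : ArithmeticFunction.vonMangoldt n = 0 := by
    interval_cases n <;> simp
  rw [h2, mul_zero] at h1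
  exact norm_eq_zero.1 (le_antisymm h1 (norm_nonneg _))

lemma LC.cf_le (h : LC D A Q F a) (hD : 1 ≤ D) (n : ℕ) : ‖cf D a n‖ ≤ 1 := by
  unfold cf
  rcases Nat.lt_or_ge n 2 with hn | hn
  · rw [h.a_le_one (by omega), zero_div, norm_zero]
    norm_num
  have hlog : 0 < Real.log n := Real.log_pos (by exact_mod_cast hn)
  rw [norm_div, norm_mul, Complex.norm_real, Complex.norm_real, Real.norm_of_nonneg (by linarith),
    Real.norm_of_nonneg hlog.le, div_le_one (by positivity)]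
  refine (h.ha n).trans ?_
  exact mul_le_mul_of_nonneg_left ArithmeticFunction.vonMangoldt_le_log (by linarith)

lemma LC.cf_pp (h : LC D A Q F a) (n : ℕ) (hn : ¬ IsPrimePow n) : cf D a n = 0 := by
  have h1 := h.ha n
  rw [ArithmeticFunction.vonMangoldt_apply, if_neg hn, mul_zero] at h1
  unfold cf
  rw [norm_eq_zero.1 (le_antisymm h1 (norm_nonneg _)), zero_div]

lemma LC.LL_deriv (h : LC D A Q F a) (hD : 1 ≤ D) {s : ℂ} (hs : 1 < s.re) :
    HasDerivAt (LL (cf D a)) (-((∑' n : ℕ, a n * (n : ℂ) ^ (-s)) / D)) s := by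
  have hc := h.cf_le hD
  have hc0 : cf D a 0 = 0 := h.cf_pp 0 not_isPrimePow_zero
  have habs : LSeries.abscissaOfAbsConv (cf D a) < s.re := by
    refine (LSeries.abscissaOfAbsConv_le_of_le_const ⟨1, fun n _ => hc n⟩).trans_lt ?_
    exact_mod_cast hs
  have h1 := LSeries_hasDerivAt habs
  have e1 : LSeries (cf D a) = LL (cf D a) := by
    funext z
    unfold LSeries LL
    refine tsum_congr fun n => ?_
    rcases Nat.eq_zero_or_pos n with rfl | hn
    · rw [LSeries.term_zero, hc0, zero_mul]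
    · rw [LSeries.term_of_ne_zero (by omega), Complex.cpow_neg, div_eq_mul_inv]
  have hD0 : (D : ℂ) ≠ 0 := by
    have : D ≠ 0 := by linarith
    exact_mod_cast this
  have e2 : LSeries (LSeries.logMul (cf D a)) s = (∑' n : ℕ, a n * (n : ℂ) ^ (-s)) / D := by
    unfold LSeries
    rw [← tsum_div_const]
    refine tsum_congr fun n => ?_
    rcases Nat.lt_or_ge n 2 with hn | hn
    · rw [h.a_le_one (by omega), zero_mul, zero_div]
      rcases Nat.eq_zero_or_pos n with rfl | hn0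
      · rw [LSeries.term_zero]
      · have : n = 1 := by omega
        subst this
        rw [LSeries.term_of_ne_zero (by norm_num)]
        unfold LSeries.logMul
        simp
    · rw [LSeries.term_of_ne_zero (by omega), Complex.cpow_neg, div_eq_mul_inv]
      unfold LSeries.logMul cf
      have hlog : (Real.log n : ℂ) ≠ 0 := by
        have : Real.log n ≠ 0 := (Real.log_pos (by exact_mod_cast hn)).ne'
        exact_mod_cast this
      rw [← Complex.natCast_log]
      field_simp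
  rw [e1, e2] at h1
  exact h1

/-- `F` is a constant times the exponential of the Dirichlet series of its logarithm -/
lemma LC.const (h : LC D A Q F a) (hD : 1 ≤ D) (hA : 1 ≤ A) : ∃ κ0 : ℂ,
    A⁻¹ * Real.exp (-(D * Cr)) ≤ ‖κ0‖ ∧ ∀ s : ℂ, 1 < s.re → 1 < s.im → F s = κ0 * cexp (D * LL (cf D a) s) := by
  have hc := h.cf_le hD
  have hc0 : cf D a 0 = 0 := h.cf_pp 0 not_isPrimePow_zero
  set U : Set ℂ := {z : ℂ | 1 < z.re} ∩ {z : ℂ | 1 < z.im} with hU
  have hUo : IsOpen U := (isOpen_lt continuous_const Complex.continuous_re).inter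
    (isOpen_lt continuous_const Complex.continuous_im)
  have hUc : IsPreconnected U := ((convex_halfSpace_re_gt 1).inter (convex_halfSpace_im_gt 1)).isPreconnected
  set G : ℂ → ℂ := fun s => F s * cexp (-(D * LL (cf D a) s)) with hG
  have hd : ∀ s ∈ U, HasDerivAt G 0 s := by
    rintro s ⟨h1, h2⟩
    have h1' : 1 < s.re := h1
    have h2' : 1 < s.im := h2
    have hF : HasDerivAt F (deriv F s) s := (h.an s (by linarith)).differentiableAt.hasDerivAt
    have hL := ((h.LL_deriv hD h1').const_mul (D : ℂ)).neg.cexp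
    have hD0 : (D : ℂ) ≠ 0 := by
      have : D ≠ 0 := by linarith
      exact_mod_cast this
    have h3 := hF.mul hL
    have h4 := h.ld s h1' h2'.le
    have h5 := h.nz s h1' h2'.le
    have h6 : deriv F s = -(∑' n : ℕ, a n * (n : ℂ) ^ (-s)) * F s := by
      rw [← h4, div_mul_cancel₀ _ h5]
    refine h3.congr_deriv ?_
    change deriv F s * cexp (-(D * LL (cf D a) s)) + F s * (cexp (-(D * LL (cf D a) s)) *
      -(D * -((∑' n : ℕ, a n * (n : ℂ) ^ (-s)) / D))) = 0
    rw [h6]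
    field_simp
    ring
  have hconst : ∀ s ∈ U, G s = G ⟨2, 2⟩ := by
    intro s hs
    apply hUo.is_const_of_deriv_eq_zero hUc (fun z hz => (hd z hz).differentiableAt.differentiableWithinAt)
      (fun z hz => (hd z hz).deriv) hs
    constructor
    · change (1 : ℝ) < 2
      norm_num
    · change (1 : ℝ) < 2
      norm_num
  refine ⟨G ⟨2, 2⟩, ?_, ?_⟩
  · rw [hG]
    simp only
    rw [norm_mul, Complex.norm_exp]
    have h1 := h.lower 2 (by norm_num)
    have h2 : -(D * Cr) ≤ (-(D * LL (cf D a) ⟨2, 2⟩)).re := by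
      have h3 := LL_le hc hc0 (s := ⟨2, 2⟩) (by norm_num)
      have h4 := Complex.abs_re_le_norm (-((D : ℂ) * LL (cf D a) ⟨2, 2⟩))
      rw [norm_neg, norm_mul, Complex.norm_real, Real.norm_of_nonneg (by linarith)] at h4
      have h5 := neg_abs_le (-((D : ℂ) * LL (cf D a) ⟨2, 2⟩)).re
      have h6 : D * ‖LL (cf D a) ⟨2, 2⟩‖ ≤ D * Cr := mul_le_mul_of_nonneg_left h3 (by linarith)
      linarith
    exact mul_le_mul h1 (Real.exp_le_exp.2 h2) (Real.exp_pos _).le (norm_nonneg _)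
  · intro s h1 h2
    have h3 := hconst s ⟨h1, h2⟩
    rw [← h3, hG]
    simp only
    rw [mul_assoc, ← Complex.exp_add, neg_add_cancel, Complex.exp_zero, mul_one]

/-- the number of zeros in a window -/
lemma count (A : ℝ) (hA : 1 ≤ A) : ∃ K : ℝ, 0 < K ∧ ∀ (D Q : ℝ) (F : ℂ → ℂ) (a : ℕ → ℂ), 1 ≤ Q → LC D A Q F a →
    ∀ (t : ℝ) (S : Finset ℂ), 3 ≤ t → (∀ z ∈ S, F z = 0 ∧ 1 / 2 ≤ z.re ∧ |z.im - t| ≤ 1) →
    ∑ z ∈ S, (analyticOrderNatAt F z : ℝ) ≤ K * Real.log (Q * t) := by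
  have hl : 0 < Real.log ((19 / 10 : ℝ) / (181 / 100)) := Real.log_pos (by norm_num)
  refine ⟨(2 * Real.log A + 2 * A) / Real.log ((19 / 10 : ℝ) / (181 / 100)), by
    have := Real.log_nonneg hA
    positivity, ?_⟩
  intro D Q F a hQ h t S ht hS
  have ht0 : 0 < t := by linarith
  have hQt : 3 ≤ Q * t := by nlinarith
  have hQt0 : 0 < Q * t := by linarith
  have hlog1 : 1 ≤ Real.log (Q * t) := by
    rw [Real.le_log_iff_exp_le hQt0]
    have := Real.exp_one_lt_d9
    linarith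
  have hA0 : 0 < A := by linarith
  have hlogA := Real.log_nonneg hA
  set M : ℝ := A * (2 * (Q * t)) ^ A with hM
  have hM0 : 0 < M := by positivity
  have hM1 : 1 ≤ M := by
    have h1 : 1 ≤ (2 * (Q * t)) ^ A := Real.one_le_rpow (by linarith) hA0.le
    nlinarith
  have hball : ∀ z ∈ closedBall (⟨2, t⟩ : ℂ) (19 / 10), (1 / 16 : ℝ) ≤ z.re ∧ z.re ≤ 4 ∧ 1 ≤ z.im ∧ z.im ≤ 2 * t := by
    intro z hz
    rw [mem_closedBall, dist_eq_norm] at hz
    have h1 := (Complex.abs_re_le_norm (z - ⟨2, t⟩)).trans hz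
    have h2 := (Complex.abs_im_le_norm (z - ⟨2, t⟩)).trans hz
    rw [Complex.sub_re] at h1
    rw [Complex.sub_im] at h2
    have h3 := abs_le.1 h1
    have h4 := abs_le.1 h2
    simp only at h3 h4
    refine ⟨by linarith, by linarith, by linarith, by linarith⟩
  have hj := H370.Loc.jensen_mult (f := F) (c := ⟨2, t⟩) (r := 181 / 100) (R := 19 / 10) (M := M) (by norm_num)
    (by norm_num) hM1 (fun z hz => h.an z (by linarith [(hball z hz).2.2.1])) (h.nz _ (by
      change (1 : ℝ) < 2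
      norm_num) (by
      change 1 ≤ t
      linarith)) (by
      intro z hz
      obtain ⟨b1, b2, b3, b4⟩ := hball z hz
      refine (h.growth z b1 b2 b3).trans ?_
      apply mul_le_mul_of_nonneg_left _ hA0.le
      apply Real.rpow_le_rpow (by positivity) _ hA0.le
      nlinarith) S (by
      intro z hz
      obtain ⟨c1, c2, c3⟩ := hS z hz
      have c4 := h.re_le c1 (by
        have := abs_le.1 c3
        linarith)
      rw [mem_closedBall, dist_eq_norm]
      apply le_of_sq_le_sq _ (by norm_num)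
      rw [← Complex.normSq_eq_norm_sq, Complex.normSq_apply, Complex.sub_re, Complex.sub_im]
      simp only
      have c5 := abs_le.1 c3
      nlinarith [c5.1, c5.2])
  have hc1 := h.lower t (by linarith)
  have hpos : 0 < ‖F (⟨2, t⟩ : ℂ)‖ := lt_of_lt_of_le (by positivity) hc1
  refine hj.trans ?_
  rw [div_mul_eq_mul_div]
  apply div_le_div_of_nonneg_right _ hl.le
  have h1 : Real.log (M / ‖F (⟨2, t⟩ : ℂ)‖) ≤ Real.log (A ^ 2 * (2 * (Q * t)) ^ A) := by
    apply Real.log_le_log (by positivity)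
    rw [div_le_iff₀ hpos, hM]
    have h2 : A * (2 * (Q * t)) ^ A = A ^ 2 * (2 * (Q * t)) ^ A * A⁻¹ := by
      field_simp
    rw [h2]
    exact mul_le_mul_of_nonneg_left hc1 (by positivity)
  refine h1.trans ?_
  rw [Real.log_mul (by positivity) (by positivity), Real.log_pow, Real.log_rpow (by positivity),
    Real.log_mul (by norm_num) (by positivity)]
  have h2 : Real.log 2 ≤ 1 := by
    have := Real.log_two_lt_d9
    linarith
  push_cast
  nlinarith

end Pool.Agent.Zk1.BIL
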