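import Mathlib

set_option autoImplicit false

/-!
# A class of L-functions (arbitrary degree and conductor)
-/

namespace Pool.Agent.Zk1.BIL

open Complex

/-- analytic input about an L-function in the upper half plane, uniform in the conductor `Q`:
polynomial growth and `-F'/F = ∑ a(n) n^(-s)` for `Re s > 1` with `|a(n)| ≤ D Λ(n)`. -/
structure LC (D A Q : ℝ) (F : ℂ → ℂ) (a : ℕ → ℂ) : Prop where
  an : ∀ s : ℂ, 0 < s.im → AnalyticAt ℂ F s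
  growth : ∀ s : ℂ, (1 / 16 : ℝ) ≤ s.re → s.re ≤ 4 → 1 ≤ s.im → ‖F s‖ ≤ A * (Q * s.im) ^ A
  lower : ∀ t : ℝ, 1 ≤ t → A⁻¹ ≤ ‖F (⟨2, t⟩ : ℂ)‖
  upper : ∀ t : ℝ, 1 ≤ t → ‖F (⟨2, t⟩ : ℂ)‖ ≤ A
  ha : ∀ n : ℕ, ‖a n‖ ≤ D * ArithmeticFunction.vonMangoldt n
  nz : ∀ s : ℂ, 1 < s.re → 1 ≤ s.im → F s ≠ 0
  ld : ∀ s : ℂ, 1 < s.re → 1 ≤ s.im → deriv F s / F s = - ∑' n : ℕ, a n * (n : ℂ) ^ (-s)

end Pool.Agent.Zk1.BIL
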