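import Pool.Agent.Zk1.BIL.Basic

set_option autoImplicit false

/-!
# The local theorem for the class `LC`
-/

namespace Pool.Agent.Zk1.BIL

open Complex Filter Topology MeasureTheory Set Metric
open Pool.Agent.Zk1.BI (Cr Cr_summable Cr_nonneg Ce Ce_nonneg sum_sq_le core1)

/-- the conditions on `X` -/
lemma X_cond (δ K x0 D : ℝ) (hδ : 0 < δ) (hD : 1 ≤ D) : ∃ X0 : ℝ, 2 ≤ X0 ∧ ∀ X : ℝ, X0 ≤ X → x0 ≤ Real.log X ∧
    K * X ^ (δ / 2) ≤ X ^ δ ∧ D * (4 * Cr * X ^ (-(3 / 16 : ℝ))) ≤ 1 / 4 ∧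
    320 * D * (Cr + 1) * X ^ (-(3 / 16 : ℝ)) ≤ X ^ (-(1 / 8 : ℝ)) := by
  have t1 : Tendsto (fun X : ℝ => X ^ (δ / 2)) atTop atTop := tendsto_rpow_atTop (by positivity)
  have t2 : Tendsto (fun X : ℝ => X ^ (1 / 16 : ℝ)) atTop atTop := tendsto_rpow_atTop (by norm_num)
  have e0 := Real.tendsto_log_atTop.eventually_ge_atTop x0
  have e1 := t1.eventually_ge_atTop K
  have e2 := t2.eventually_ge_atTop (320 * D * (Cr + 1))
  obtain ⟨X1, hX1⟩ := eventually_atTop.1 ((e0.and e1).and e2)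
  have hCr := Cr_nonneg
  refine ⟨max X1 2, le_max_right _ _, fun X hX => ?_⟩
  obtain ⟨⟨g0, g1⟩, g2⟩ := hX1 X ((le_max_left _ _).trans hX)
  have hX2 : 2 ≤ X := (le_max_right _ _).trans hX
  have hX0 : 0 < X := by linarith
  have p1 : 0 < X ^ (δ / 2) := Real.rpow_pos_of_pos hX0 _
  have p2 : 0 < X ^ (-(3 / 16 : ℝ)) := Real.rpow_pos_of_pos hX0 _
  have q1 : X ^ δ = X ^ (δ / 2) * X ^ (δ / 2) := by
    rw [← Real.rpow_add hX0]; congr 1; ring
  have q2 : X ^ (-(1 / 8 : ℝ)) = X ^ (1 / 16 : ℝ) * X ^ (-(3 / 16 : ℝ)) := by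
    rw [← Real.rpow_add hX0]; congr 1; norm_num
  have q3 : X ^ (-(1 / 8 : ℝ)) ≤ 1 := Real.rpow_le_one_of_one_le_of_nonpos (by linarith) (by norm_num)
  have q4 : 320 * D * (Cr + 1) * X ^ (-(3 / 16 : ℝ)) ≤ X ^ (-(1 / 8 : ℝ)) := by
    rw [q2]
    exact mul_le_mul_of_nonneg_right g2 p2.le
  refine ⟨g0, ?_, ?_, q4⟩
  · rw [q1]
    exact mul_le_mul_of_nonneg_right g1 p1.le
  · have q5 : 0 ≤ D * X ^ (-(3 / 16 : ℝ)) := by positivity
    have q6 : 0 ≤ D * Cr * X ^ (-(3 / 16 : ℝ)) := by positivity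
    have q7 : 320 * D * (Cr + 1) * X ^ (-(3 / 16 : ℝ)) = 320 * (D * Cr * X ^ (-(3 / 16 : ℝ))) +
      320 * (D * X ^ (-(3 / 16 : ℝ))) := by ring
    have q8 : D * (4 * Cr * X ^ (-(3 / 16 : ℝ))) = 4 * (D * Cr * X ^ (-(3 / 16 : ℝ))) := by ring
    rw [q8]
    linarith

/-- The local theorem. -/
theorem local_thm (ε D A : ℝ) (hε : 0 < ε) (hε1 : ε ≤ 1 / 20) (hD : 1 ≤ D) (hA : 1 ≤ A) :
    ∃ η κ B X0 : ℝ, 0 < η ∧ η ≤ 1 ∧ 0 < κ ∧ 1 ≤ B ∧ 2 ≤ X0 ∧
    ∀ (Q X T : ℝ) (F : ℂ → ℂ) (a : ℕ → ℂ) (ρ : ℂ), 1 ≤ Q → LC D A Q F a → X0 ≤ X → 3 ≤ T →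
    (Real.log (Q * T)) ^ B ≤ X → F ρ = 0 → 1 / 2 + 2 * ε ≤ ρ.re →
    T ≤ ρ.im → ρ.im ≤ 2 * T → (num F (near F ε ρ) : ℝ) < κ * Real.log X →
    ∃ z : ℂ, ρ.re - ε ≤ z.re ∧ z.re ≤ 4 ∧ |z.im - ρ.im| ≤ 2 ∧ X ^ η ≤ ‖PSc (cf D a) X z‖ := by
  obtain ⟨δ, κ, X1, hδ, hδ1, hκ, hcore⟩ := core1 ε hε hε1
  have hA0 : 0 < A := by linarith
  have hD0 : 0 < D := by linarith
  have hCr := Cr_nonneg
  have hCe := Ce_nonneg ε
  obtain ⟨K0, hK0⟩ : ∃ K0 : ℝ, K0 = A ^ 2 * Real.exp (D * Cr) * 3 ^ A := ⟨_, rfl⟩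
  have hK00 : 0 < K0 := by rw [hK0]; positivity
  obtain ⟨K, hK⟩ : ∃ K : ℝ, K = |Real.log K0| + D * (4 * Ce ε) + A + D := ⟨_, rfl⟩
  obtain ⟨X0, hX02, hX0⟩ := X_cond δ K X1 D hδ hD
  have hδ2 : 0 < δ / 2 := by positivity
  refine ⟨δ / 2, κ, max 1 (2 / δ), X0, hδ2, by linarith, hκ, le_max_left _ _, hX02, ?_⟩
  intro Q X T F a ρ hQ hF hX hT hTX hρ0 hρre hρi1 hρi2 hnum
  by_contra hcon
  push Not at hcon
  have hc := hF.cf_le hD
  have hcp := hF.cf_pp
  obtain ⟨c1, c2, c3, c4⟩ := hX0 X hX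
  have hX2 : 2 ≤ X := hX02.trans hX
  have hXpos : 0 < X := by linarith
  have hX1' : 1 ≤ X := by linarith
  have hT0 : 0 < T := by linarith
  have hQT : 3 ≤ Q * T := by nlinarith
  have hQT0 : 0 < Q * T := by linarith
  have hρlt := hF.re_le hρ0 (by linarith)
  have hlogT : 1 ≤ Real.log (Q * T) := by
    rw [Real.le_log_iff_exp_le hQT0]
    have := Real.exp_one_lt_d9
    linarith
  have hlogX : Real.log (Q * T) ≤ X ^ (δ / 2) := by
    have h1 : (Real.log (Q * T)) ^ (2 / δ) ≤ X :=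
      (Real.rpow_le_rpow_of_exponent_le hlogT (le_max_right _ _)).trans hTX
    have h2 : ((Real.log (Q * T)) ^ (2 / δ)) ^ (δ / 2) ≤ X ^ (δ / 2) :=
      Real.rpow_le_rpow (by positivity) h1 hδ2.le
    rw [← Real.rpow_mul (by linarith)] at h2
    have e1 : 2 / δ * (δ / 2) = 1 := by field_simp
    rwa [e1, Real.rpow_one] at h2
  obtain ⟨κ0, hκ0, hFκ⟩ := hF.const hD hA
  have hκpos : 0 < ‖κ0‖ := lt_of_lt_of_le (by positivity) hκ0
  have hκne : κ0 ≠ 0 := norm_pos_iff.1 hκpos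
  set x : ℝ := Real.log X with hx
  have hXx : X = Real.exp x := (Real.exp_log hXpos).symm
  have hXδ : X ^ δ = Real.exp (δ * x) := by
    rw [Real.rpow_def_of_pos hXpos, mul_comm]
  set c : ℂ := ρ + ((1 : ℝ) : ℂ) with hcdef
  have hcre : c.re = ρ.re + 1 := by rw [hcdef, Complex.add_re, Complex.ofReal_re]
  have hcim : c.im = ρ.im := by rw [hcdef, Complex.add_im, Complex.ofReal_im, add_zero]
  have hball : ∀ z ∈ closedBall c (1 + ε), ρ.re - ε ≤ z.re ∧ z.re ≤ 4 ∧ |z.im - ρ.im| ≤ 1 + ε := by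
    intro z hz
    rw [mem_closedBall, dist_eq_norm] at hz
    have h1 := Complex.abs_re_le_norm (z - c)
    have h2 := Complex.abs_im_le_norm (z - c)
    rw [Complex.sub_re, hcre] at h1
    rw [Complex.sub_im, hcim] at h2
    obtain ⟨h3, h4⟩ := abs_le.1 (h1.trans hz)
    exact ⟨by linarith, by linarith, h2.trans hz⟩
  have him : ∀ z ∈ closedBall c (1 + ε), 1 < z.im ∧ z.im ≤ 3 * T := by
    intro z hz
    obtain ⟨h1, h2⟩ := abs_le.1 (hball z hz).2.2
    constructor <;> linarith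
  have hpos : ∀ z ∈ closedBall c (1 + ε), 1 / 2 + ε ≤ z.re := fun z hz => by
    have := (hball z hz).1
    linarith
  -- the function
  set g : ℂ → ℂ := fun z => κ0⁻¹ * F z * cexp (-(D * PL (cf D a) X z)) with hg
  have hexpana : ∀ z ∈ closedBall c (1 + ε), AnalyticAt ℂ (fun z => cexp (-(D * PL (cf D a) X z))) z := by
    intro z hz
    exact ((analyticAt_const.mul (PL_ana hc X (by linarith [hpos z hz]))).neg).cexp
  have hana : AnalyticOnNhd ℂ g (closedBall c (1 + ε)) := fun z hz =>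
    (analyticAt_const.mul (hF.an z (by linarith [(him z hz).1]))).mul (hexpana z hz)
  have hPSb : ∀ z ∈ closedBall c (1 + ε), ‖PSc (cf D a) X z‖ ≤ X ^ (δ / 2) := by
    intro z hz
    obtain ⟨h1, h2, h3⟩ := hball z hz
    exact (hcon z h1 h2 (h3.trans (by linarith))).le
  have hPLb : ∀ z ∈ closedBall c (1 + ε), ‖PL (cf D a) X z‖ ≤ X ^ (δ / 2) + 4 * Ce ε := by
    intro z hz
    have h1 := PL_sub hc X hε (hpos z hz)
    have h2 := hPSb z hz
    have h3 : ‖PL (cf D a) X z‖ ≤ ‖PL (cf D a) X z - PSc (cf D a) X z‖ + ‖PSc (cf D a) X z‖ := by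
      have := norm_add_le (PL (cf D a) X z - PSc (cf D a) X z) (PSc (cf D a) X z)
      rwa [sub_add_cancel] at this
    linarith
  have hfb : ∀ z ∈ closedBall c (1 + ε), ‖g z‖ ≤ Real.exp (Real.exp (δ * x)) := by
    intro z hz
    obtain ⟨hi1, hi2⟩ := him z hz
    have hre := hpos z hz
    have hFz : ‖F z‖ ≤ (A * 3 ^ A) * (Q * T) ^ A := by
      have h5 := hF.growth z (by linarith) (hball z hz).2.1 hi1.le
      have h6 : (Q * z.im) ^ A ≤ (3 * (Q * T)) ^ A :=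
        Real.rpow_le_rpow (by positivity) (by nlinarith) hA0.le
      rw [Real.mul_rpow (by norm_num) hQT0.le] at h6
      calc ‖F z‖ ≤ A * (Q * z.im) ^ A := h5
        _ ≤ A * (3 ^ A * (Q * T) ^ A) := by gcongr
        _ = (A * 3 ^ A) * (Q * T) ^ A := by ring
    have hκinv : ‖κ0⁻¹‖ ≤ A * Real.exp (D * Cr) := by
      rw [norm_inv]
      rw [inv_le_comm₀ hκpos (by positivity), mul_inv, ← Real.exp_neg]
      exact hκ0
    have hexp : ‖cexp (-(D * PL (cf D a) X z))‖ ≤ Real.exp (D * (X ^ (δ / 2) + 4 * Ce ε)) := by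
      rw [Complex.norm_exp]
      apply Real.exp_le_exp.2
      have h1 := Complex.re_le_norm (-((D : ℂ) * PL (cf D a) X z))
      rw [norm_neg, norm_mul, Complex.norm_real, Real.norm_of_nonneg hD0.le] at h1
      exact h1.trans (mul_le_mul_of_nonneg_left (hPLb z hz) hD0.le)
    rw [← hXδ]
    calc ‖g z‖ = ‖κ0⁻¹‖ * ‖F z‖ * ‖cexp (-(D * PL (cf D a) X z))‖ := by
          rw [hg]
          simp only
          rw [norm_mul, norm_mul]
      _ ≤ (A * Real.exp (D * Cr)) * ((A * 3 ^ A) * (Q * T) ^ A) * Real.exp (D * (X ^ (δ / 2) + 4 * Ce ε)) := by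
          gcongr
      _ = K0 * (Q * T) ^ A * Real.exp (D * (X ^ (δ / 2) + 4 * Ce ε)) := by rw [hK0]; ring
      _ = Real.exp (Real.log K0 + A * Real.log (Q * T) + D * (X ^ (δ / 2) + 4 * Ce ε)) := by
          have e1 : (Q * T) ^ A = Real.exp (A * Real.log (Q * T)) := by
            rw [Real.rpow_def_of_pos hQT0]; congr 1; ring
          rw [e1, Real.exp_add (Real.log K0 + A * Real.log (Q * T)), Real.exp_add (Real.log K0),
            Real.exp_log hK00]
      _ ≤ Real.exp (X ^ δ) := by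
          apply Real.exp_le_exp.2
          refine le_trans ?_ c2
          have h9 : 1 ≤ X ^ (δ / 2) := Real.one_le_rpow hX1' hδ2.le
          have h10 : Real.log K0 ≤ |Real.log K0| * X ^ (δ / 2) :=
            (le_abs_self _).trans (le_mul_of_one_le_right (abs_nonneg _) h9)
          have h11 : A * Real.log (Q * T) ≤ A * X ^ (δ / 2) := mul_le_mul_of_nonneg_left hlogX hA0.le
          have h12 : D * (4 * Ce ε) ≤ D * (4 * Ce ε) * X ^ (δ / 2) := le_mul_of_one_le_right (by positivity) h9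
          rw [hK]
          linarith
  -- near the centre
  have hQ1 : ∀ z : ℂ, 6 / 5 + 3 / 16 ≤ z.re → 1 < z.im → ‖g z - 1‖ ≤ 8 * D * Cr * X ^ (-(3 / 16 : ℝ)) := by
    intro z hz hzi
    have h1 : g z = cexp (D * (LL (cf D a) z - PL (cf D a) X z)) := by
      rw [hg]
      simp only
      rw [hFκ z (by linarith) hzi, ← mul_assoc, inv_mul_cancel₀ hκne, one_mul, ← Complex.exp_add]
      congr 1
      ring
    have h2 : ‖(D : ℂ) * (LL (cf D a) z - PL (cf D a) X z)‖ ≤ D * (4 * Cr * X ^ (-(3 / 16 : ℝ))) := by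
      rw [norm_mul, Complex.norm_real, Real.norm_of_nonneg hD0.le]
      apply mul_le_mul_of_nonneg_left _ hD0.le
      refine (LL_tail hc hcp hX1' (by linarith)).trans ?_
      apply mul_le_mul_of_nonneg_left _ (by positivity)
      apply Real.rpow_le_rpow_of_exponent_le hX1'
      linarith
    rw [h1]
    refine (Complex.norm_exp_sub_one_le (h2.trans (by linarith))).trans ?_
    calc 2 * ‖(D : ℂ) * (LL (cf D a) z - PL (cf D a) X z)‖ ≤ 2 * (D * (4 * Cr * X ^ (-(3 / 16 : ℝ)))) := by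
          linarith
      _ = _ := by ring
  have hQh : ∀ z : ℂ, 6 / 5 + 3 / 16 ≤ z.re → 1 < z.im → 1 / 2 ≤ ‖g z‖ := by
    intro z hz hzi
    have h1 := hQ1 z hz hzi
    have h2 : (1 : ℝ) ≤ ‖g z‖ + ‖g z - 1‖ := by
      calc (1 : ℝ) = ‖(1 : ℂ)‖ := by rw [norm_one]
        _ = ‖g z - (g z - 1)‖ := by congr 1; ring
        _ ≤ _ := norm_sub_le _ _
    have h3 : 8 * D * Cr * X ^ (-(3 / 16 : ℝ)) = 2 * (D * (4 * Cr * X ^ (-(3 / 16 : ℝ)))) := by ring
    linarith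
  have hcim1 : 1 < c.im := by rw [hcim]; linarith
  have hfc : 1 / 2 ≤ ‖g c‖ := hQh c (by rw [hcre]; linarith) hcim1
  have hfs : ∀ z ∈ closedBall c (1 / 16), g z ≠ 0 ∧ ‖logDeriv g z‖ ≤ Real.exp (-(x / 8)) := by
    intro z hz
    rw [mem_closedBall, dist_eq_norm] at hz
    have h1 := Complex.abs_re_le_norm (z - c)
    have h1i := Complex.abs_im_le_norm (z - c)
    rw [Complex.sub_re, hcre] at h1
    rw [Complex.sub_im, hcim] at h1i
    obtain ⟨h3, h4⟩ := abs_le.1 (h1.trans hz)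
    obtain ⟨h3i, h4i⟩ := abs_le.1 (h1i.trans hz)
    have hzr : 3 / 2 - 1 / 16 ≤ z.re := by linarith
    have h5 := hQh z (by linarith) (by linarith)
    have h6 : g z ≠ 0 := by
      intro e
      rw [e, norm_zero] at h5
      linarith
    refine ⟨h6, ?_⟩
    have hnear : ∀ w ∈ closedBall z (1 / 20), 6 / 5 + 3 / 16 ≤ w.re ∧ 1 < w.im := by
      intro w hw
      rw [mem_closedBall, dist_eq_norm] at hw
      have h7 := Complex.abs_re_le_norm (w - z)
      have h7i := Complex.abs_im_le_norm (w - z)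
      rw [Complex.sub_re] at h7
      rw [Complex.sub_im] at h7i
      obtain ⟨h8, h9⟩ := abs_le.1 (h7.trans hw)
      obtain ⟨h8i, h9i⟩ := abs_le.1 (h7i.trans hw)
      constructor <;> linarith
    have hgd : ∀ w ∈ closedBall z (1 / 20), DifferentiableAt ℂ g w := by
      intro w hw
      obtain ⟨n1, n2⟩ := hnear w hw
      have e1 : AnalyticAt ℂ (fun z => cexp (-(D * PL (cf D a) X z))) w :=
        ((analyticAt_const.mul (PL_ana hc X (by linarith))).neg).cexp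
      exact ((analyticAt_const.mul (hF.an w (by linarith))).mul e1).differentiableAt
    have hd : DifferentiableOn ℂ (fun w => g w - 1) (closedBall z (1 / 20)) := fun w hw =>
      ((hgd w hw).sub_const 1).differentiableWithinAt
    have h7 : ‖deriv (fun w => g w - 1) z‖ ≤ 8 * D * Cr * X ^ (-(3 / 16 : ℝ)) / (1 / 20) := by
      apply Complex.norm_deriv_le_of_forall_mem_sphere_norm_le (by norm_num)
      · apply DifferentiableOn.diffContOnCl
        rw [closure_ball _ (by norm_num)]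
        exact hd
      · intro w hw
        obtain ⟨n1, n2⟩ := hnear w (sphere_subset_closedBall hw)
        exact hQ1 w n1 n2
    rw [deriv_sub_const] at h7
    rw [logDeriv_apply, norm_div]
    have p2 : 0 < X ^ (-(3 / 16 : ℝ)) := Real.rpow_pos_of_pos hXpos _
    calc ‖deriv g z‖ / ‖g z‖ ≤ (8 * D * Cr * X ^ (-(3 / 16 : ℝ)) / (1 / 20)) / (1 / 2) := by gcongr
      _ = 320 * D * Cr * X ^ (-(3 / 16 : ℝ)) := by ring
      _ ≤ 320 * D * (Cr + 1) * X ^ (-(3 / 16 : ℝ)) := by gcongr; linarith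
      _ ≤ X ^ (-(1 / 8 : ℝ)) := c4
      _ = Real.exp (-(x / 8)) := by
          rw [Real.rpow_def_of_pos hXpos]; congr 1; rw [hx]; ring
  have hf0 : g (c - ((1 : ℝ) : ℂ)) = 0 := by
    have e : c - ((1 : ℝ) : ℂ) = ρ := by rw [hcdef]; ring
    rw [e, hg]
    simp only
    rw [hρ0, mul_zero, zero_mul]
  obtain ⟨S, hS, hSx⟩ := hcore x g c c1 hana hfb hfc hfs hf0
  -- comparison
  have hfin : (near F ε ρ).Finite := hF.near_fin hA ε (by linarith)
  have hzero : ∀ z, g z = 0 → F z = 0 := by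
    intro z hz
    rw [hg] at hz
    simp only at hz
    rcases mul_eq_zero.1 hz with h1 | h1
    · rcases mul_eq_zero.1 h1 with h2 | h2
      · exact absurd h2 (inv_ne_zero hκne)
      · exact h2
    · exact absurd h1 (Complex.exp_ne_zero _)
  have hsub : S ⊆ hfin.toFinset := by
    intro z hz
    rw [Set.Finite.mem_toFinset]
    obtain ⟨h1, h2⟩ := hS z hz
    have hzr := hpos z h1
    have hz0 := hzero z h2
    have hzlt := hF.re_le hz0 (him z h1).1.le
    refine ⟨hz0, (hball z h1).1, ?_⟩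
    rw [mem_closedBall, dist_eq_norm] at h1
    have h3 : ‖z - c‖ ^ 2 ≤ (1 + ε) ^ 2 := pow_le_pow_left₀ (norm_nonneg _) h1 2
    rw [← Complex.normSq_eq_norm_sq, Complex.normSq_apply, Complex.sub_re, Complex.sub_im, hcre, hcim] at h3
    have h4 : (1 / 2) ^ 2 ≤ (z.re - (ρ.re + 1)) * (z.re - (ρ.re + 1)) := by nlinarith
    have h5 : (1 + ε) ^ 2 ≤ (21 / 20) ^ 2 := by gcongr; linarith
    rw [abs_le_one_iff_mul_self_le_one]
    linarith
  have horder : ∀ z ∈ closedBall c (1 + ε), analyticOrderNatAt g z = analyticOrderNatAt F z := by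
    intro z hz
    have e1 : g = (fun z => F z) * (fun z => κ0⁻¹ * cexp (-(D * PL (cf D a) X z))) := by
      funext w
      simp only [hg, Pi.mul_apply]
      ring
    have h2 : AnalyticAt ℂ (fun z => κ0⁻¹ * cexp (-(D * PL (cf D a) X z))) z :=
      analyticAt_const.mul (hexpana z hz)
    unfold analyticOrderNatAt
    rw [e1, analyticOrderAt_mul (hF.an z (by linarith [(him z hz).1])) h2]
    have h3 : analyticOrderAt (fun z => κ0⁻¹ * cexp (-(D * PL (cf D a) X z))) z = 0 := by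
      rw [h2.analyticOrderAt_eq_zero]
      exact mul_ne_zero (inv_ne_zero hκne) (Complex.exp_ne_zero _)
    rw [h3, add_zero]
  have h6 : (∑ z ∈ S, (analyticOrderNatAt g z : ℝ)) ≤ (num F (near F ε ρ) : ℝ) := by
    unfold num
    rw [finsum_mem_eq_finite_toFinset_sum _ hfin]
    push_cast
    refine le_trans (le_of_eq ?_) (Finset.sum_le_sum_of_subset_of_nonneg hsub fun _ _ _ => by positivity)
    refine Finset.sum_congr rfl fun z hz => ?_
    obtain ⟨h1, h2⟩ := hS z hz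
    rw [horder z h1]
  linarith

end Pool.Agent.Zk1.BIL
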